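import Mathlib
import Pool.Agent.Results.MP_e5c236_nt.BoundsAndDensity
import Pool.Agent.V11109.DEC.Tend

/-!
# Sums of four positive integers whose product is a fourth power, in sparse sequences

Let `p > 1` be a real number. There is a set `A₀` of real numbers of Hausdorff dimension smaller than
one such that for all `α > 0` outside `A₀`, with `t_j = ⌊α j ^ p⌋` (there are about `X ^ (1 / p)` terms up to
`X`), and all integers `q ≥ 1` for 100% of the `j` the integer `n = q t_j` is a sum of exactly four positive integers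
whose product is a fourth power, and is not such a sum of at most three.
-/

set_option autoImplicit false

namespace Pool.Agent.Results.MP_e5c236_nt.SparseSums

open Pool.Agent.V11109.DEC (nterm Few)
open Pool.Agent.Results.MP_e5c236_nt.BoundsAndDensity (Representable)

/-- `n` is not a sum of exactly four positive integers whose product is a fourth power -/
def NotFour (n : ℕ) : Prop := ¬ Representable 4 4 n

/-- `n` is a sum of at most three positive integers whose product is a fourth power -/
def Three (n : ℕ) : Prop := ∃ t : ℕ, 1 ≤ t ∧ t ≤ 3 ∧ Representable 4 t n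

lemma mono_few {p : ℝ} {A₀ A₁ : Set ℝ} {η : ℝ} {q : ℕ} {P : ℕ → Prop} (h : Few p A₀ η q P)
    (hA : A₀ ⊆ A₁) : Few p A₁ η q P := fun α hα hαE => h α hα fun hE => hαE (hA hE)

/-- **Main result.** -/
theorem result (p : ℝ) (hp : 1 < p) : ∃ A₀ : Set ℝ, dimH A₀ < 1 ∧
    ∀ q : ℕ, 1 ≤ q → ∀ η : ℝ, 0 < η → Few p A₀ η q NotFour ∧ Few p A₀ η q Three := by
  obtain ⟨-, -, h4, h3⟩ := BoundsAndDensity.result
  obtain ⟨A, hA, hA'⟩ := Pool.Agent.V11109.DEC.few_of_tendsto p hp NotFour h4
  obtain ⟨B, hB, hB'⟩ := Pool.Agent.V11109.DEC.few_of_tendsto p hp Three h3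
  refine ⟨A ∪ B, ?_, fun q hq η hη => ⟨mono_few (hA' q hq η hη) Set.subset_union_left,
    mono_few (hB' q hq η hη) Set.subset_union_right⟩⟩
  rw [dimH_union]
  exact max_lt hA hB

end Pool.Agent.Results.MP_e5c236_nt.SparseSums
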